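import Pool.Agent.H207.BT.Stm
import Pool.Agent.H295.HY211.DIST

/-!
# Derivatives near critical points, with multiplicity (project BT of helper207, task DXM, by helper30)
-/

set_option autoImplicit false

open Topology Filter Metric Set

namespace Pool.Agent.H30.BT207

open Pool.Agent.H790R3.RB Pool.Agent.H211.HY
open Pool.Agent.H295.HY211 (dn_ne eq_smul zc_le N2_smul N2_iot cr_eq_cho cho_le_one
  cho_nonneg pt_ne wr_iot sg_norm continuous_N2)

theorem cont_iot (τ : Bool) : Continuous (iot τ) := by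
  cases τ
  · have e : iot false = fun w : ℂ => ((1 : ℂ), w) := rfl
    rw [e]
    exact continuous_const.prodMk continuous_id
  · have e : iot true = fun w : ℂ => (w, (1 : ℂ)) := rfl
    rw [e]
    exact continuous_id.prodMk continuous_const

theorem cont_N {d : ℕ} (x : CV d) (τ : Bool) : Continuous fun w : ℂ => N2 (hF x (iot τ w)) := by
  have h1 : Continuous (fun q : CV d × (ℂ × ℂ) => hF q.1 q.2) := (hF_contDiff d 1).continuous
  have h2 : Continuous fun w : ℂ => hF x (iot τ w) :=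
    h1.comp (continuous_const.prodMk (cont_iot τ))
  exact continuous_N2.comp h2

/-- the denominator in the chart of `v` -/
theorem dn_low (v : ℂ × ℂ) : N2 v ≤ 2 * ‖dn (tau v) v‖ ^ 2 := by
  unfold N2 dn tau
  by_cases h : ‖v.1‖ ≤ ‖v.2‖
  · rw [if_pos (by simpa using h)]
    have := pow_le_pow_left₀ (norm_nonneg _) h 2
    linarith
  · rw [if_neg (by simpa using h)]
    push Not at h
    have := pow_le_pow_left₀ (norm_nonneg _) h.le 2
    linarith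

theorem dn_smul (τ : Bool) (a : ℂ) (v : ℂ × ℂ) : dn τ (a • v) = a * dn τ v := by
  cases τ <;> rfl

theorem t_DXM (h : Pool.Agent.H211.HY.S_DER) : Pool.Agent.H207.BT.S_DXM := by
  intro d k x₀ c₀ m hd hnd hfac
  -- lower bound of the image
  have h1 : ∀ τ : Bool, ∃ e1 : ℝ, 0 < e1 ∧ ∀ w ∈ closedBall (0 : ℂ) 1,
      e1 ≤ N2 (hF x₀ (iot τ w)) := by
    intro τ
    obtain ⟨q0, hq0, hmin⟩ := (isCompact_closedBall (0 : ℂ) 1).exists_isMinOn
      ⟨0, mem_closedBall_self zero_le_one⟩ (cont_N x₀ τ).continuousOn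
    exact ⟨_, N2_pos fun h => iot_ne τ q0 (hnd _ h), fun w hw => hmin hw⟩
  obtain ⟨e1, he1, hE1⟩ : ∃ e1 : ℝ, 0 < e1 ∧ ∀ τ : Bool, ∀ w ∈ closedBall (0 : ℂ) 1,
      e1 ≤ N2 (hF x₀ (iot τ w)) := by
    obtain ⟨a, ha, ha'⟩ := h1 true
    obtain ⟨b, hb, hb'⟩ := h1 false
    refine ⟨min a b, lt_min ha hb, fun τ q hq => ?_⟩
    cases τ
    · exact (min_le_right _ _).trans (hb' q hq)
    · exact (min_le_left _ _).trans (ha' q hq)
  -- the bound of the factors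
  obtain ⟨B, hB1, hBi⟩ : ∃ B : ℝ, 1 ≤ B ∧ ∀ i, Real.sqrt (2 * N2 (c₀ i, 1)) ≤ B := by
    refine ⟨1 + ∑ i, Real.sqrt (2 * N2 (c₀ i, 1)), ?_, fun i => ?_⟩
    · have : 0 ≤ ∑ i, Real.sqrt (2 * N2 (c₀ i, 1)) := Finset.sum_nonneg fun i _ => Real.sqrt_nonneg _
      linarith
    · have := Finset.single_le_sum (f := fun i => Real.sqrt (2 * N2 (c₀ i, 1)))
        (fun i _ => Real.sqrt_nonneg _) (Finset.mem_univ i)
      linarith
  have hB0 : 0 ≤ B := by linarith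
  have hd1 : (1 : ℝ) ≤ (d : ℝ) := by
    have : 1 ≤ d := by omega
    exact_mod_cast this
  refine ⟨‖wr x₀ (1, 0)‖ * B ^ (2 * d - 2) * (2 / e1) + 1, by
    have : 0 ≤ ‖wr x₀ (1, 0)‖ * B ^ (2 * d - 2) * (2 / e1) := by positivity
    linarith, fun p l hp => ?_⟩
  obtain ⟨τ, hτ⟩ : ∃ τ, τ = tau p := ⟨_, rfl⟩
  obtain ⟨τ', hτ'⟩ : ∃ τ', τ' = tau (hF x₀ p) := ⟨_, rfl⟩
  obtain ⟨z, hz⟩ : ∃ z, z = zc p := ⟨_, rfl⟩
  rw [← hτ, ← hτ', ← hz]
  have hz1 : ‖z‖ ≤ 1 := by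
    rw [hz]
    exact zc_le
  have ha : dn τ p ≠ 0 := by
    rw [hτ]
    exact dn_ne hp
  have hps : p = dn τ p • iot τ z := by
    rw [hτ, hz]
    exact eq_smul hp
  have hNz := hE1 τ z (mem_closedBall_zero_iff.2 hz1)
  -- the denominator
  have hden : e1 ≤ 2 * ‖dn τ' (hF x₀ (iot τ z))‖ ^ 2 := by
    have h2 := dn_low (hF x₀ p)
    rw [← hτ'] at h2
    have h3 : hF x₀ p = dn τ p ^ d • hF x₀ (iot τ z) := by
      conv_lhs => rw [hps]
      exact hF_smul x₀ _ _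
    rw [h3, N2_smul, dn_smul, norm_mul, mul_pow] at h2
    have h4 : 0 < ‖dn τ p ^ d‖ ^ 2 := by
      have : 0 < ‖dn τ p ^ d‖ := norm_pos_iff.2 (pow_ne_zero _ ha)
      positivity
    have h5 : ‖dn τ p ^ d‖ ^ 2 * N2 (hF x₀ (iot τ z)) ≤
        ‖dn τ p ^ d‖ ^ 2 * (2 * ‖dn τ' (hF x₀ (iot τ z))‖ ^ 2) := by linarith
    exact hNz.trans (le_of_mul_le_mul_left h5 h4)
  have hdne : dn τ' (hF x₀ (iot τ z)) ≠ 0 := by
    intro h0
    rw [h0, norm_zero] at hden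
    norm_num at hden
    linarith
  have hder := ((h d k τ τ' z hd).1 x₀ hdne).deriv
  rw [hder, wr_iot x₀ hd c₀ m hfac.deg hfac.fac τ z]
  rw [norm_div, norm_mul, norm_mul, norm_mul, norm_mul, sg_norm, sg_norm, norm_pow,
    one_mul, one_mul, norm_prod, Complex.norm_natCast]
  -- the factors
  have hF0 : ∀ i, ‖cr (iot τ z) (c₀ i, 1)‖ ≤ B * cho p (c₀ i, 1) := by
    intro i
    rw [hτ, hz, cr_eq_cho hp (pt_ne _), mul_comm B, ← hz]
    refine mul_le_mul_of_nonneg_left ?_ (cho_nonneg _ _)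
    refine le_trans (Real.sqrt_le_sqrt ?_) (hBi i)
    have h2 : 0 < N2 (c₀ i, 1) := N2_pos (pt_ne _)
    refine mul_le_mul_of_nonneg_right ?_ h2.le
    nlinarith [norm_nonneg z]
  have hprod : ∏ i, ‖cr (iot τ z) (c₀ i, 1) ^ m i‖ ≤ B ^ (2 * d - 2) * cho p (c₀ l, 1) ^ m l := by
    have h3 : ∀ i, ‖cr (iot τ z) (c₀ i, 1) ^ m i‖ ≤ B ^ m i := by
      intro i
      rw [norm_pow]
      refine pow_le_pow_left₀ (norm_nonneg _) ((hF0 i).trans ?_) _
      have := cho_le_one p (c₀ i, 1)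
      nlinarith
    have h4 : ‖cr (iot τ z) (c₀ l, 1) ^ m l‖ ≤ B ^ m l * cho p (c₀ l, 1) ^ m l := by
      rw [norm_pow, ← mul_pow]
      exact pow_le_pow_left₀ (norm_nonneg _) (hF0 l) _
    rw [← hfac.deg, ← Finset.prod_pow_eq_pow_sum, ← Finset.mul_prod_erase _ _ (Finset.mem_univ l),
      ← Finset.mul_prod_erase Finset.univ (fun i => B ^ m i) (Finset.mem_univ l),
      mul_right_comm]
    have h5 := pow_nonneg (cho_nonneg p (c₀ l, 1)) (m l)
    refine mul_le_mul h4 (Finset.prod_le_prod (fun i _ => norm_nonneg _) fun i _ => h3 i)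
      (Finset.prod_nonneg fun i _ => norm_nonneg _) (by positivity)
  have hcho : 0 ≤ cho p (c₀ l, 1) ^ m l := pow_nonneg (cho_nonneg _ _) _
  have h5 : e1 / 2 ≤ (d : ℝ) * ‖dn τ' (hF x₀ (iot τ z))‖ ^ 2 := by
    nlinarith [sq_nonneg ‖dn τ' (hF x₀ (iot τ z))‖]
  calc (‖wr x₀ (1, 0)‖ * ∏ i, ‖cr (iot τ z) (c₀ i, 1) ^ m i‖) /
        ((d : ℝ) * ‖dn τ' (hF x₀ (iot τ z))‖ ^ 2)
      ≤ ‖wr x₀ (1, 0)‖ * (B ^ (2 * d - 2) * cho p (c₀ l, 1) ^ m l) / (e1 / 2) := by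
        refine div_le_div₀ (by positivity) ?_ (by positivity) h5
        exact mul_le_mul_of_nonneg_left hprod (norm_nonneg _)
    _ = ‖wr x₀ (1, 0)‖ * B ^ (2 * d - 2) * (2 / e1) * cho p (c₀ l, 1) ^ m l := by
        field_simp
    _ ≤ (‖wr x₀ (1, 0)‖ * B ^ (2 * d - 2) * (2 / e1) + 1) * cho p (c₀ l, 1) ^ m l :=
        mul_le_mul_of_nonneg_right (by linarith) hcho

end Pool.Agent.H30.BT207
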