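import Pool.Agent.H207.BT.Stm6
import Pool.Agent.H137.BT207.TG3

/-!
# Targets everywhere, with a bound for the time (helper30, for helper207; adapted from helper137)
-/

set_option autoImplicit false

open Topology Filter Metric Set

namespace Pool.Agent.H30.BT207

open Pool.Agent.H790R3.RB Pool.Agent.H211.HY Pool.Agent.H207.BT
open Pool.Agent.H274.HY211 (ift cho_iot IsT_mono)
open Pool.Agent.H137.BT207 (near3 shift)

theorem rchT_mono {d : ℕ} {M M' : ℕ} {x : CV d} {g p : ℂ × ℂ} (h : M ≤ M') (h1 : RchT M x g p) :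
    RchT M' x g p := by
  obtain ⟨n, hn, h2⟩ := h1
  exact ⟨n, hn.trans h, h2⟩

/-- the moving point, with noncritical points before -/
theorem ift3T {d k : ℕ} {x₀ : CV d} {c₀ : Fin k → ℂ} {m : Fin k → ℕ} {X : (Fin k → ℂ) → CV d}
    {c : Fin k → (Fin k → ℂ) → ℂ} {ρ : ℝ} (hN : ND x₀)
    (hX : Fami x₀ k c₀ m X c ρ) (τ : Bool) (z : ℂ) (n : ℕ) (j : Fin k)
    (hw : ∀ i < n, wr x₀ ((hF x₀)^[i] (iot τ z)) ≠ 0)
    (h0 : cr ((hF x₀)^[n] (iot τ z)) (c₀ j, 1) = 0) :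
    ∃ q : (Fin k → ℂ) → ℂ, ∃ r > (0 : ℝ), r ≤ ρ ∧ ∃ L : ℝ, IsT q r L ∧ q 0 = z ∧
      ∀ s ∈ ball (0 : Fin k → ℂ) r, RchT n (X s) (c j s, 1) (iot τ (q s)) := by
  obtain ⟨q, r, hr, hrρ, L, hq, hq0, hs⟩ := ift hN hX τ z n j hw h0
  have hmem : (0 : Fin k → ℂ) ∈ ball (0 : Fin k → ℂ) r := mem_ball_self hr
  have hqc : ContinuousAt q 0 := by
    have h1 : ∀ᶠ s in 𝓝 (0 : Fin k → ℂ), dist (q s) (q 0) ≤ L * dist s 0 := by
      filter_upwards [ball_mem_nhds (0 : Fin k → ℂ) hr] with s hs'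
      rw [dist_eq_norm, dist_eq_norm]
      exact hq s hs' 0 hmem
    have h2 : Tendsto (fun s : Fin k → ℂ => L * dist s 0) (𝓝 0) (𝓝 0) := by
      have : Tendsto (fun s : Fin k → ℂ => L * dist s 0) (𝓝 0) (𝓝 (L * dist (0 : Fin k → ℂ) 0)) :=
        (continuous_const.mul (continuous_id.dist continuous_const)).tendsto 0
      simpa using this
    exact tendsto_iff_dist_tendsto_zero.2
      (squeeze_zero' (Eventually.of_forall fun _ => dist_nonneg) h1 h2)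
  have hXc : ContinuousAt X 0 :=
    (hX.dif.differentiableAt (isOpen_ball.mem_nhds (mem_ball_self hX.ρ0))).continuousAt
  have hio : Continuous (iot τ) := by
    cases τ with
    | true =>
      have e : iot true = fun z : ℂ => (z, (1 : ℂ)) := by funext z; simp [iot]
      rw [e]; exact continuous_id.prodMk continuous_const
    | false =>
      have e : iot false = fun z : ℂ => ((1 : ℂ), z) := by funext z; simp [iot]
      rw [e]; exact continuous_const.prodMk continuous_id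
  have hall : ∀ᶠ s in 𝓝 (0 : Fin k → ℂ), ∀ i ∈ Finset.range n,
      wr (X s) ((hF (X s))^[i] (iot τ (q s))) ≠ 0 := by
    rw [Finset.eventually_all]
    intro i hin
    have h1 : ContinuousAt (fun s => (hF (X s))^[i] (iot τ (q s))) 0 :=
      ContinuousAt.comp (f := fun s : Fin k → ℂ => (X s, iot τ (q s)))
        (g := fun q : CV d × (ℂ × ℂ) => (hF q.1)^[i] q.2)
        (hF_iter_continuous d i).continuousAt (hXc.prodMk (hio.continuousAt.comp hqc))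
    have h2 : ContinuousAt (fun s => wr (X s) ((hF (X s))^[i] (iot τ (q s)))) 0 :=
      ContinuousAt.comp (f := fun s : Fin k → ℂ => (X s, (hF (X s))^[i] (iot τ (q s))))
        (g := fun q : CV d × (ℂ × ℂ) => wr q.1 q.2)
        (wr_contDiff d 1).continuous.continuousAt (hXc.prodMk h1)
    refine h2.eventually_ne ?_
    rw [hX.at0, hq0]
    exact hw i (Finset.mem_range.1 hin)
  obtain ⟨r', hr', hb⟩ := Metric.eventually_nhds_iff_ball.mp hall
  refine ⟨q, min r r', lt_min hr hr', (min_le_left _ _).trans hrρ, L,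
    IsT_mono hq (min_le_left _ _) le_rfl, hq0, fun s hs' => ⟨n, le_rfl, fun i hin => ?_, ?_⟩⟩
  · exact hb s (ball_subset_ball (min_le_right _ _) hs') i (Finset.mem_range.2 hin)
  · exact hs s (ball_subset_ball (min_le_left _ _) hs')

theorem t_TG3T : Pool.Agent.H207.BT.S_TG3T := by
  intro d k x₀ c₀ m X c ρ hd hN hC hD hi hf hX ε hε hε1
  -- for one chart and one critical point
  have one : ∀ i : Fin k × Bool, ∃ ρ₁ > (0 : ℝ), ρ₁ ≤ ρ ∧ ∃ (L : ℝ) (M : ℕ),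
      ∀ z ∈ closedBall (0 : ℂ) 1,
      ∃ q : (Fin k → ℂ) → ℂ, IsT q ρ₁ L ∧ ‖q 0 - z‖ ≤ ε / 4 ∧
        ∀ s ∈ ball (0 : Fin k → ℂ) ρ₁, RchT M (X s) (c i.1 s, 1) (iot i.2 (q s)) := by
    rintro ⟨l, τ⟩
    refine (isCompact_closedBall (0 : ℂ) 1).induction_on
      (p := fun K => ∃ ρ₁ > (0 : ℝ), ρ₁ ≤ ρ ∧ ∃ (L : ℝ) (M : ℕ), ∀ z ∈ K,
        ∃ q : (Fin k → ℂ) → ℂ, IsT q ρ₁ L ∧ ‖q 0 - z‖ ≤ ε / 4 ∧
          ∀ s ∈ ball (0 : Fin k → ℂ) ρ₁, RchT M (X s) (c l s, 1) (iot τ (q s))) ?_ ?_ ?_ ?_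
    · exact ⟨ρ, hX.ρ0, le_rfl, 0, 0, fun z hz => absurd hz (notMem_empty z)⟩
    · rintro s t hst ⟨ρ₁, h1, h2, L, M, h3⟩
      exact ⟨ρ₁, h1, h2, L, M, fun z hz => h3 z (hst hz)⟩
    · rintro s t ⟨ρ₁, h1, h2, L, M, h3⟩ ⟨ρ₂, g1, g2, L₂, M₂, g3⟩
      refine ⟨min ρ₁ ρ₂, lt_min h1 g1, (min_le_left _ _).trans h2, max L L₂, max M M₂,
        fun z hz => ?_⟩
      rcases hz with hz | hz
      · obtain ⟨q, hq, hqz, hs⟩ := h3 z hz
        exact ⟨q, IsT_mono hq (min_le_left _ _) (le_max_left _ _), hqz,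
          fun a ha => rchT_mono (le_max_left _ _) (hs a (ball_subset_ball (min_le_left _ _) ha))⟩
      · obtain ⟨q, hq, hqz, hs⟩ := g3 z hz
        exact ⟨q, IsT_mono hq (min_le_right _ _) (le_max_right _ _), hqz,
          fun a ha => rchT_mono (le_max_right _ _) (hs a (ball_subset_ball (min_le_right _ _) ha))⟩
    · intro z hz
      have hz1 : ‖z‖ ≤ 1 := by simpa using hz
      obtain ⟨z', hzz, n, hw, hc⟩ := near3 hd hN hC hD hi hf l τ hz1
        (show (0 : ℝ) < ε / 8 by positivity)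
      obtain ⟨q, r, hr, hrρ, L, hq, hq0, hs⟩ := ift3T hN hX τ z' n l hw hc
      refine ⟨ball z (ε / 8), mem_nhdsWithin_of_mem_nhds (ball_mem_nhds z (by positivity)),
        r, hr, hrρ, L, n, fun a ha => ⟨q, hq, ?_, hs⟩⟩
      rw [hq0]
      rw [mem_ball, dist_eq_norm] at ha
      calc ‖z' - a‖ = ‖(z' - z) - (a - z)‖ := by congr 1; ring
        _ ≤ ‖z' - z‖ + ‖a - z‖ := norm_sub_le _ _
        _ ≤ ε / 4 := by linarith
  have hk : 0 < k := hf.kpos hd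
  have : Nonempty (Fin k × Bool) := ⟨(⟨0, hk⟩, true)⟩
  choose r hr0 hrρ L M hL using one
  obtain ⟨i₀, h0⟩ := Finite.exists_min r
  obtain ⟨i₁, h1⟩ := Finite.exists_max L
  obtain ⟨i₂, h2⟩ := Finite.exists_max M
  refine ⟨r i₀, hr0 i₀, hrρ i₀, L i₁, M i₂, fun l τ z hz => ?_⟩
  obtain ⟨z', hz', hzz⟩ := shift hz hε hε1
  obtain ⟨q, hq, hqz, hs⟩ := hL (l, τ) z' (by simpa using hz')
  refine ⟨q, IsT_mono hq (h0 _) (h1 _), ?_, ?_,
    fun s hs' => rchT_mono (h2 _) (hs s (ball_subset_ball (h0 _) hs'))⟩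
  · have e : ‖z' - z‖ ≤ ‖q 0 - z‖ + ‖q 0 - z'‖ := by
      calc ‖z' - z‖ = ‖(q 0 - z) - (q 0 - z')‖ := by congr 1; ring
        _ ≤ _ := norm_sub_le _ _
    linarith
  · have e : ‖q 0 - z‖ ≤ ‖q 0 - z'‖ + ‖z' - z‖ := by
      calc ‖q 0 - z‖ = ‖(q 0 - z') + (z' - z)‖ := by congr 1; ring
        _ ≤ _ := norm_add_le _ _
    linarith

end Pool.Agent.H30.BT207
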